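import Pool.Agent.X240.LE.Lem

/-!
# MP_5ac32f_an: the two-lemniscates theorem for hyperinvariant subspaces

Let `T` be a bounded operator on a complex Banach space `X` (no reflexivity, separability or dimension
assumption), let `p` be a polynomial, and let `D₁`, `D₂` be disjoint closed discs whose open preimages
`p⁻¹(D₁°)` and `p⁻¹(D₂°)` both contain a point of the spectrum of `T`.  Suppose that for almost all points
`w` of the two circles `∂D₁`, `∂D₂` no root `z` of `p z = w` is in the spectrum of `T`, and that the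
largest of the numbers `log⁺ ‖(z - T)⁻¹‖` over these roots has an integrable bound, as a function on the
circle.  Then `T` has a nontrivial closed hyperinvariant subspace.

So the logarithm of the resolvent has to be integrable on two lemniscates `|p z - c| = r` only (with respect
to the pull-back of the length of the circle, which is a multiple of the harmonic measure at infinity);
nothing is assumed off these curves, where the spectrum may have interior points, and they may run through
the spectrum.  The lemniscates may have several components and singular points; for `p z = z` they are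
circles.

The proof applies the theorem on two circles (`Pool.Agent.W610.HY`, starting result `TwoCircles`) to the
operator `p(T)`; new are the bound for its resolvent by the resolvents of `T` at the roots, and the vector
and the functional whose local spectra meet the discs (at boundary points of the spectrum of `p(T)`).
-/

set_option autoImplicit false

open MeasureTheory Metric Set Filter Topology Polynomial

namespace Pool.Agent.Results.MP_5ac32f_an.TwoLemniscates

open Pool.Agent.X240.LE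

/-- `φ` is an integrable bound, almost everywhere on the circle with centre `c` and radius `r`, for
`log⁺ ‖(z - T)⁻¹‖` at all roots `z` of `p z = w`, and these roots are not in the spectrum of `T`. -/
def LogBound {X : Type} [NormedAddCommGroup X] [NormedSpace ℂ X] (T : X →L[ℂ] X) (p : ℂ[X])
    (c : ℂ) (r : ℝ) (φ : ℝ → ℝ) : Prop :=
  IntegrableOn φ (Ioc (0:ℝ) (2 * Real.pi)) ∧
    ∀ᵐ θ ∂(volume.restrict (Ioc (0:ℝ) (2 * Real.pi))), ∀ z : ℂ, p.eval z = circleMap c r θ →
      z ∉ spectrum ℂ T ∧ Real.posLog ‖resolvent T z‖ ≤ φ θ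

variable {X : Type} [NormedAddCommGroup X] [NormedSpace ℂ X]

lemma posLog_norm {E : Type} [NormedAddCommGroup E] (p : ℂ[X]) (hp : 0 < p.natDegree)
    (T : X →L[ℂ] X) (c : ℂ) (r : ℝ) (φ : ℝ → ℝ) (h : LogBound T p c r φ) (F : ℂ → E) (a : ℝ)
    (hF : AEStronglyMeasurable (fun θ => F (circleMap c r θ))
      (volume.restrict (Ioc (0:ℝ) (2 * Real.pi))))
    (hle : ∀ z, ‖F z‖ ≤ a * ‖resolvent (aeval T p) z‖) :
    IntegrableOn (fun θ => Real.posLog ‖F (circleMap c r θ)‖) (Ioc (0:ℝ) (2 * Real.pi)) := by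
  have h1 : IntegrableOn (fun θ : ℝ => Real.posLog a +
      (Real.posLog ‖p.leadingCoeff⁻¹‖ + φ θ * p.natDegree)) (Ioc (0:ℝ) (2 * Real.pi)) := by
    apply Integrable.add
    · exact integrableOn_const (by rw [Real.volume_Ioc]; exact ENNReal.ofReal_ne_top)
    · apply Integrable.add
      · exact integrableOn_const (by rw [Real.volume_Ioc]; exact ENNReal.ofReal_ne_top)
      · exact h.1.mul_const _
  refine Integrable.mono' h1 ?_ ?_
  · exact Real.continuous_posLog.comp_aestronglyMeasurable hF.norm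
  · filter_upwards [h.2] with θ hθ
    rw [Real.norm_eq_abs, abs_of_nonneg Real.posLog_nonneg]
    calc Real.posLog ‖F (circleMap c r θ)‖
        ≤ Real.posLog (a * ‖resolvent (aeval T p) (circleMap c r θ)‖) :=
          Real.posLog_le_posLog (norm_nonneg _) (hle _)
      _ ≤ Real.posLog a + Real.posLog ‖resolvent (aeval T p) (circleMap c r θ)‖ :=
          Real.posLog_mul
      _ ≤ _ := by
          gcongr
          exact (res_poly T p hp _ _ hθ).2

/-- **The two-lemniscates theorem.** -/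
theorem result (X : Type) [NormedAddCommGroup X] [NormedSpace ℂ X] [CompleteSpace X]
    (T : X →L[ℂ] X) (p : ℂ[X])
    -- two circles bounding disjoint closed discs
    (c₁ c₂ : ℂ) (r₁ r₂ : ℝ) (hr : r₁ + r₂ < ‖c₁ - c₂‖)
    -- points of the spectrum inside both lemniscates
    (a₁ a₂ : ℂ) (ha₁ : a₁ ∈ spectrum ℂ T) (ha₂ : a₂ ∈ spectrum ℂ T)
    (hp₁ : ‖p.eval a₁ - c₁‖ < r₁) (hp₂ : ‖p.eval a₂ - c₂‖ < r₂)
    -- the logarithm of the resolvent is integrable on the lemniscates
    (φ₁ φ₂ : ℝ → ℝ) (hφ₁ : LogBound T p c₁ r₁ φ₁) (hφ₂ : LogBound T p c₂ r₂ φ₂) :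
    ∃ V : Submodule ℂ X, IsClosed (V : Set X) ∧ V ≠ ⊥ ∧ V ≠ ⊤ ∧
      ∀ Q : X →L[ℂ] X, Q * T = T * Q → ∀ v ∈ V, Q v ∈ V := by
  -- the polynomial is not constant
  have hp : 0 < p.natDegree := by
    rw [Nat.pos_iff_ne_zero]
    intro h0
    obtain ⟨b, hb⟩ : ∃ b, p = C b := ⟨_, eq_C_of_natDegree_eq_zero h0⟩
    rw [hb, eval_C] at hp₁ hp₂
    have : ‖c₁ - c₂‖ ≤ ‖b - c₁‖ + ‖b - c₂‖ := by
      calc ‖c₁ - c₂‖ = ‖(b - c₂) - (b - c₁)‖ := by congr 1; ring
        _ ≤ ‖b - c₂‖ + ‖b - c₁‖ := norm_sub_le _ _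
        _ = _ := add_comm _ _
    linarith
  set S := aeval T p with hS
  have hs₁ : p.eval a₁ ∈ spectrum ℂ S := spectrum.subset_polynomial_aeval T p ⟨a₁, ha₁, rfl⟩
  have hs₂ : p.eval a₂ ∈ spectrum ℂ S := spectrum.subset_polynomial_aeval T p ⟨a₂, ha₂, rfl⟩
  have hn₁ : ∀ᵐ θ ∂(volume.restrict (Ioc (0:ℝ) (2 * Real.pi))),
      circleMap c₁ r₁ θ ∉ spectrum ℂ S := by
    filter_upwards [hφ₁.2] with θ hθ
    exact (res_poly T p hp _ _ hθ).1
  have hn₂ : ∀ᵐ θ ∂(volume.restrict (Ioc (0:ℝ) (2 * Real.pi))),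
      circleMap c₂ r₂ θ ∉ spectrum ℂ S := by
    filter_upwards [hφ₂.2] with θ hθ
    exact (res_poly T p hp _ _ hθ).1
  obtain ⟨b₁, hb₁, hbs₁, hbc₁⟩ := exists_bd S c₁ r₁ _ hs₁ hp₁ hn₁
  obtain ⟨b₂, hb₂, hbs₂, hbc₂⟩ := exists_bd S c₂ r₂ _ hs₂ hp₂ hn₂
  obtain ⟨x, hx⟩ := exists_vec S b₁ hbs₁ hbc₁
  obtain ⟨y, hy⟩ := exists_fun S b₂ hbs₂ hbc₂
  have hmeas := Pool.Agent.W610.HY.Fin.hMEAS (X →L[ℂ] X) S
  have hmx : StronglyMeasurable (fun θ : ℝ => resolvent S (circleMap c₁ r₁ θ) x) :=
    (ContinuousLinearMap.apply ℂ X x).continuous.comp_stronglyMeasurable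
      (hmeas.comp_measurable (continuous_circleMap c₁ r₁).measurable)
  have hmy : StronglyMeasurable (fun θ : ℝ => y.comp (resolvent S (circleMap c₂ r₂ θ))) :=
    ((ContinuousLinearMap.compL ℂ X X ℂ) y).continuous.comp_stronglyMeasurable
      (hmeas.comp_measurable (continuous_circleMap c₂ r₂).measurable)
  obtain ⟨V, hV1, hV2, hV3, hV4⟩ :=
    Pool.Agent.W610.HY.Two.main Pool.Agent.W610.HY.Fin.hGOOD2 Pool.Agent.W22.HY.NZ2.main
    Pool.Agent.W389.HY.ABM.main X S x y c₁ c₂ r₁ r₂ (fun w => resolvent S w x)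
    (fun w => y.comp (resolvent S w)) b₁ b₂ hr hb₁ hb₂ hmx.aestronglyMeasurable
    hmy.aestronglyMeasurable (by
      filter_upwards [hn₁] with θ hθ
      have hu : IsUnit (algebraMap ℂ (X →L[ℂ] X) (circleMap c₁ r₁ θ) - S) :=
        spectrum.notMem_iff.mp hθ
      exact DFunLike.congr_fun (Ring.mul_inverse_cancel _ hu) x) (by
      filter_upwards [hn₂] with θ hθ
      have hu : IsUnit (algebraMap ℂ (X →L[ℂ] X) (circleMap c₂ r₂ θ) - S) :=
        spectrum.notMem_iff.mp hθ
      have e1 : resolvent S (circleMap c₂ r₂ θ) *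
        (algebraMap ℂ (X →L[ℂ] X) (circleMap c₂ r₂ θ) - S) = 1 := Ring.inverse_mul_cancel _ hu
      ext v
      have e2 := congrArg y (DFunLike.congr_fun e1 v)
      have e3 : resolvent S (circleMap c₂ r₂ θ)
          ((algebraMap ℂ (X →L[ℂ] X) (circleMap c₂ r₂ θ) - S) v) =
          circleMap c₂ r₂ θ • resolvent S (circleMap c₂ r₂ θ) v -
            resolvent S (circleMap c₂ r₂ θ) (S v) := by
        rw [← map_smul, ← map_sub]
        rfl
      have e4 : y (circleMap c₂ r₂ θ • resolvent S (circleMap c₂ r₂ θ) v -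
            resolvent S (circleMap c₂ r₂ θ) (S v)) = y v := by
        rw [← e3]; exact e2
      rw [map_sub, map_smul] at e4
      exact e4)
    (posLog_norm p hp T c₁ r₁ φ₁ hφ₁ (fun w => resolvent S w x) ‖x‖ hmx.aestronglyMeasurable
      (fun z => by rw [mul_comm]; exact ContinuousLinearMap.le_opNorm _ _))
    (posLog_norm p hp T c₂ r₂ φ₂ hφ₂ (fun w => y.comp (resolvent S w)) ‖y‖
      hmy.aestronglyMeasurable (fun z => ContinuousLinearMap.opNorm_comp_le _ _))
    hx hy
  refine ⟨V, hV1, hV2, hV3, fun Q hQ v hv => hV4 Q ?_ v hv⟩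
  have hc : Commute Q T := hQ
  have : Commute Q (aeval T p) := by
    rw [aeval_eq_sum_range]
    exact Commute.sum_right _ _ _ fun i _ => (hc.pow_right i).smul_right _
  exact this

end Pool.Agent.Results.MP_5ac32f_an.TwoLemniscates
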